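import Pool.Agent.CPT.StmtsB
import Pool.Agent.Helper1_PGH.DerivExt

set_option autoImplicit false

/-! Row DEX of squad CPT: dual derivations extend to algebraic extensions. -/

namespace Pool.Agent.CPT.H48

theorem dex : DexStmt := by
  intro E κ Λ _ _ _ _ _ _ _ _ _ n ψ h
  obtain ⟨δ, hδ⟩ := h
  haveI : Algebra.IsSeparable κ Λ := inferInstance
  haveI : Algebra.FormallyEtale κ Λ := Algebra.FormallyEtale.of_isSeparable κ Λ
  have h1 : ∀ i : Fin n, ∃ D' : Derivation E Λ Λ,
      ∀ a, D' (algebraMap κ Λ a) = algebraMap κ Λ (δ i a) := by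
    intro i
    obtain ⟨D', hD'⟩ := PGH.exists_deriv_ext E κ Λ Λ ((Algebra.linearMap κ Λ).compDer (δ i))
    refine ⟨D', fun a => ?_⟩
    rw [hD' a]
    rfl
  choose D hD using h1
  refine ⟨D, fun i j => ?_⟩
  rw [hD, hδ]
  split_ifs <;> simp

end Pool.Agent.CPT.H48
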